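import Pool.Agent.H96.JCT.Stmts

/-!
Row REP of the board jct.
-/

namespace Pool.JCT

open Complex Set

theorem rep_thm (hI : INC_S) : REP_S := by
  intro f g φ a b a' b' p hf hg hφ hm ha hb hgf hoff
  have hoffg : Off g a b p := by
    intro t ht h
    exact hoff (φ t) (hm t ht) (by rw [← hgf t ht]; exact h)
  obtain ⟨⟨F, hF⟩, hu⟩ := hI f a' b' p hf hoff
  have hL : Lift g a b p (fun t => F (φ t)) := by
    refine ⟨hF.1.comp hφ (fun t ht => hm t ht), ?_⟩
    intro t ht
    show exp (F (φ t)) = z (g t) - z p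
    rw [hgf t ht]
    exact hF.2 (φ t) (hm t ht)
  have h1 := (hI g a b p hg hoffg).2 _ hL
  have h2 := hu F hF
  rw [← h1, ← h2]
  show F (φ b) - F (φ a) = F b' - F a'
  rw [ha, hb]

end Pool.JCT
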